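import Pool.Agent.P8H3.RA.Stm

/-!
# Project RA: packages `DES`, `RKX`, `SUB` (helper80)
-/

set_option autoImplicit false

namespace Pool.Agent.P8H80.RA

open Pool.Agent.P8H3.RA

/-- **DES** -/
theorem des : S_DES := by
  intro F G _ _ _
  have hinj : Function.Injective (algebraMap F G) := (algebraMap F G).injective
  have hmap : Function.Injective (Polynomial.mapRingHom (algebraMap F G)) := Polynomial.map_injective _ hinj
  have hg : Function.Injective
      ((algebraMap (Polynomial G) (RatFunc G)).comp (Polynomial.mapRingHom (algebraMap F G))) :=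
    (RatFunc.algebraMap_injective G).comp hmap
  have hval : ∀ P : Polynomial F, (IsFractionRing.lift hg : RatFunc F →+* RatFunc G)
      (algebraMap (Polynomial F) (RatFunc F) P) =
        algebraMap (Polynomial G) (RatFunc G) (P.map (algebraMap F G)) := by
    intro P
    rw [IsFractionRing.lift_algebraMap]
    rfl
  refine ⟨IsFractionRing.lift hg, fun c => ?_, fun f b h => ?_⟩
  · rw [← RatFunc.algebraMap_C, hval, Polynomial.map_C, RatFunc.algebraMap_C]
  · have hQ : f.denom ≠ 0 := f.denom_ne_zero
    have hQ' : f.denom.map (algebraMap F G) ≠ 0 := (Polynomial.map_ne_zero_iff hinj).2 hQ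
    have h1 : algebraMap (Polynomial G) (RatFunc G) (f.denom.map (algebraMap F G)) ≠ 0 :=
      RatFunc.algebraMap_ne_zero hQ'
    rw [← f.num_div_denom, map_div₀, hval, hval, div_eq_iff h1, ← RatFunc.algebraMap_C, ← map_mul] at h
    have h2 := RatFunc.algebraMap_injective G h
    have h3 := congrArg (fun P => Polynomial.coeff P f.denom.natDegree) h2
    simp only [Polynomial.coeff_map, Polynomial.coeff_C_mul] at h3
    rw [show f.denom.coeff f.denom.natDegree = 1 from f.monic_denom, map_one, mul_one] at h3
    refine ⟨f.num.coeff f.denom.natDegree, ?_⟩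
    have h4 : f.num = Polynomial.C (f.num.coeff f.denom.natDegree) * f.denom := by
      apply Polynomial.map_injective _ hinj
      rw [Polynomial.map_mul, Polynomial.map_C, h3, h2]
    have h5 : algebraMap (Polynomial F) (RatFunc F) f.denom ≠ 0 := RatFunc.algebraMap_ne_zero hQ
    rw [← RatFunc.algebraMap_C]
    nth_rewrite 1 [← f.num_div_denom]
    rw [div_eq_iff h5, ← map_mul, ← h4]

/-- **RKX** -/
theorem rkx : S_RKX := by
  intro k G _ _ _ n q M A h
  have h1 : Submodule.span k (M '' (A : Set (Fin q))) = ⊤ := by
    by_contra hne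
    obtain ⟨f, hf, hle⟩ := Submodule.exists_le_ker_of_lt_top _ (lt_top_iff_ne_top.2 hne)
    apply hf
    have hv : ∀ w : Fin n → k, f w = ∑ l, w l * f (Pi.single l 1) := by
      intro w
      conv_lhs => rw [← Finset.univ_sum_single w]
      rw [map_sum]
      refine Finset.sum_congr rfl fun l _ => ?_
      have : (Pi.single l (w l) : Fin n → k) = w l • Pi.single l 1 := by
        rw [← Pi.single_smul, smul_eq_mul, mul_one]
      rw [this, map_smul, smul_eq_mul]
    have h0 := h (fun l => f (Pi.single l 1)) fun j hj => by
      rw [← hv (M j)]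
      exact hle (Submodule.subset_span ⟨j, hj, rfl⟩)
    apply LinearMap.ext
    intro w
    rw [hv, LinearMap.zero_apply]
    refine Finset.sum_eq_zero fun l _ => ?_
    have h5 := congrFun h0 l
    simp only [Pi.zero_apply] at h5
    rw [h5, mul_zero]
  have h2 : ∀ x ∈ Submodule.span k (M '' (A : Set (Fin q))),
      (fun l => algebraMap k G (x l)) ∈ Submodule.span G ((fun j l => algebraMap k G (M j l)) '' (A : Set (Fin q))) := by
    intro x hx
    induction hx using Submodule.span_induction with
    | mem x hx =>
      obtain ⟨j, hj, rfl⟩ := hx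
      exact Submodule.subset_span ⟨j, hj, rfl⟩
    | zero =>
      have : (fun l => algebraMap k G ((0 : Fin n → k) l)) = 0 := by
        ext l; simp
      rw [this]
      exact Submodule.zero_mem _
    | add x y _ _ hx hy =>
      have : (fun l => algebraMap k G ((x + y) l)) = (fun l => algebraMap k G (x l)) + fun l => algebraMap k G (y l) := by
        ext l; simp
      rw [this]
      exact Submodule.add_mem _ hx hy
    | smul c x _ hx =>
      have : (fun l => algebraMap k G ((c • x) l)) = algebraMap k G c • (fun l => algebraMap k G (x l)) := by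
        ext l; simp
      rw [this]
      exact Submodule.smul_mem _ _ hx
  have h3 : Submodule.span G ((fun j l => algebraMap k G (M j l)) '' (A : Set (Fin q))) = ⊤ := by
    rw [eq_top_iff]
    intro y _
    have e : y = ∑ l, y l • (fun l' => algebraMap k G ((Pi.single l (1 : k) : Fin n → k) l')) := by
      ext l'
      rw [Finset.sum_apply, Finset.sum_eq_single l']
      · simp
      · intro b _ hb
        simp [Pi.single_eq_of_ne (Ne.symm hb)]
      · intro hb
        exact absurd (Finset.mem_univ _) hb
    rw [e]
    exact Submodule.sum_mem _ fun l _ => Submodule.smul_mem _ _ (h2 _ (by rw [h1]; exact Submodule.mem_top))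
  unfold Pool.Agent.N750.rk
  rw [h3, finrank_top, Module.finrank_fin_fun]

/-- **SUB** -/
theorem sub : S_SUB := by
  intro k K _ _ _ n r c M x hx hr hM
  classical
  set T : (Fin (n + 1) → k) →ₗ[k] (Fin r → k) := (Matrix.of M).mulVecLin with hT
  have hTv : ∀ v i, T v i = ∑ l, M i l * v l := fun v i => rfl
  set W := LinearMap.ker T with hW
  have hWm : ∀ v, v ∈ W ↔ ∀ i, ∑ l, M i l * v l = 0 := by
    intro v
    rw [hW, LinearMap.mem_ker]
    constructor
    · intro h i
      rw [← hTv, h]; rfl
    · intro h
      ext i
      rw [hTv, h i]; rfl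
  have hdim : Module.finrank k (LinearMap.range T) + Module.finrank k W = n + 1 := by
    rw [LinearMap.finrank_range_add_finrank_ker, Module.finrank_fin_fun]
  have hrank : Module.finrank k (LinearMap.range T) = Module.finrank k (Submodule.span k (Set.range M)) := by
    have h1 := (Matrix.of M).rank_eq_finrank_span_row
    exact h1
  set β := Module.Basis.ofVectorSpace k K with hβ
  have hv : ∀ b, (fun l => β.repr (x l) b) ∈ W := by
    intro b
    rw [hWm]
    intro i
    have h1 := congrArg (fun y => β.repr y b) (hM i)
    unfold lfv at h1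
    simp only [← Algebra.smul_def, map_sum, map_smul, map_zero, Finsupp.coe_finsetSum, Finset.sum_apply,
      Finsupp.smul_apply, smul_eq_mul, Finsupp.coe_zero, Pi.zero_apply] at h1
    exact h1
  have hW0 : W ≠ ⊥ := by
    intro h0
    apply hx
    ext l
    apply β.repr.injective
    ext b
    have h1 := hv b
    rw [h0, Submodule.mem_bot] at h1
    have := congrFun h1 l
    simpa using this
  obtain ⟨p, hp⟩ : ∃ p, Module.finrank k W = p + 1 := by
    have : Module.finrank k W ≠ 0 := fun h => hW0 (Submodule.finrank_eq_zero.1 h)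
    exact ⟨Module.finrank k W - 1, by omega⟩
  set Bs := Module.finBasisOfFinrankEq k W hp with hBs
  set S : Finset _ := Finset.univ.biUnion fun l => (β.repr (x l)).support with hS
  refine ⟨p, fun j => (Bs j : Fin (n + 1) → k), fun j => ∑ b ∈ S, Bs.repr ⟨_, hv b⟩ j • β b, by omega, ?_, ?_, ?_⟩
  · exact Bs.linearIndependent.map' W.subtype (Submodule.ker_subtype W)
  · intro i j
    exact (hWm _).1 (Bs j).2 i
  · intro l
    have h1 : x l = ∑ b ∈ S, β.repr (x l) b • β b := by
      conv_lhs => rw [← β.linearCombination_repr (x l), Finsupp.linearCombination_apply, Finsupp.sum]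
      refine Finset.sum_subset (fun b hb => Finset.mem_biUnion.2 ⟨l, Finset.mem_univ _, hb⟩) fun b _ hb => ?_
      rw [Finsupp.notMem_support_iff.1 hb, zero_smul]
    have h2 : ∀ b, β.repr (x l) b = ∑ j, Bs.repr ⟨_, hv b⟩ j * (Bs j : Fin (n + 1) → k) l := by
      intro b
      have h3 := Bs.sum_repr ⟨_, hv b⟩
      have h4 := congrArg (fun w : W => (w : Fin (n + 1) → k) l) h3
      simp only [Submodule.coe_sum, Submodule.coe_smul, Finset.sum_apply, Pi.smul_apply, smul_eq_mul] at h4
      exact h4.symm
    rw [h1]
    simp_rw [Finset.mul_sum]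
    rw [Finset.sum_comm]
    refine Finset.sum_congr rfl fun b _ => ?_
    rw [h2 b, Finset.sum_smul]
    refine Finset.sum_congr rfl fun j _ => ?_
    rw [← Algebra.smul_def, smul_smul, mul_comm]

end Pool.Agent.P8H80.RA
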